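import Pool.Agent.helper78.WB.SpecIII

set_option autoImplicit false

namespace Pool.Agent.WB

open MvPolynomial

/-- exponents of the other two variables -/
noncomputable def cz_r (j : Fin 3) (m : Fin 3 →₀ ℕ) : Fin 2 →₀ ℕ :=
  Finsupp.equivFunOnFinite.symm (fun t => m (j.succAbove t))

theorem cz_r_apply (j : Fin 3) (m : Fin 3 →₀ ℕ) (t : Fin 2) : cz_r j m t = m (j.succAbove t) := rfl

/-- dehomogenisation -/
noncomputable def cz_g {F : Type} [CommRing F] (j : Fin 3) (f : MvPolynomial (Fin 3) F) :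
    MvPolynomial (Fin 2) F :=
  ∑ m ∈ f.support, monomial (cz_r j m) (coeff m f)

theorem cz_deg {d : ℕ} {F : Type} [CommRing F] {f : MvPolynomial (Fin 3) F}
    (hf : f.IsHomogeneous d) (j : Fin 3) (m : Fin 3 →₀ ℕ) (hm : m ∈ f.support) :
    m j + ∑ t, m (j.succAbove t) = d := by
  have h1 : m.degree = d := by
    have := hf (mem_support_iff.1 hm)
    rw [Finsupp.degree_eq_weight_one (R := ℕ)]
    exact this
  rw [← h1, Finsupp.degree_eq_sum, Fin.sum_univ_succAbove _ j]

theorem cz_eval {F : Type} [CommRing F] (j : Fin 3) (f : MvPolynomial (Fin 3) F) (c : Fin 2 → F) :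
    eval c (cz_g j f) = eval (Fin.insertNth j (1 : F) c : Fin 3 → F) f := by
  rw [eval_eq' (Fin.insertNth j (1 : F) c : Fin 3 → F) f, cz_g, map_sum]
  refine Finset.sum_congr rfl fun m _ => ?_
  rw [eval_monomial, Finsupp.prod_fintype _ _ (fun i => pow_zero _),
    Fin.prod_univ_succAbove _ j]
  simp only [Fin.insertNth_apply_same, one_pow, one_mul, Fin.insertNth_apply_succAbove, cz_r_apply]

theorem cz_ne {d : ℕ} {F : Type} [CommRing F] {f : MvPolynomial (Fin 3) F}
    (hf : f.IsHomogeneous d) (hf0 : f ≠ 0) (j : Fin 3) : cz_g j f ≠ 0 := by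
  classical
  obtain ⟨m0, hm0⟩ := (support_nonempty (p := f)).2 hf0
  intro h
  have h1 : coeff (cz_r j m0) (cz_g j f) = coeff m0 f := by
    rw [cz_g, coeff_sum, Finset.sum_eq_single m0]
    · rw [coeff_monomial, if_pos rfl]
    · intro m hm hne
      rw [coeff_monomial, if_neg]
      intro he
      apply hne
      have h2 : ∀ t, m (j.succAbove t) = m0 (j.succAbove t) := fun t => by
        rw [← cz_r_apply, ← cz_r_apply, he]
      have h3 : m j = m0 j := by
        have e1 := cz_deg hf j m hm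
        have e2 := cz_deg hf j m0 hm0
        rw [Finset.sum_congr rfl fun t _ => h2 t] at e1
        omega
      ext i
      rcases Fin.eq_self_or_eq_succAbove j i with rfl | ⟨t, rfl⟩
      · exact h3
      · exact h2 t
    · intro hn
      exact absurd hm0 hn
  rw [h, coeff_zero] at h1
  exact (mem_support_iff.1 hm0) h1.symm

theorem cz_tot {d : ℕ} {F : Type} [CommRing F] {f : MvPolynomial (Fin 3) F}
    (hf : f.IsHomogeneous d) (j : Fin 3) : (cz_g j f).totalDegree ≤ d := by
  refine totalDegree_finsetSum_le fun m hm => ?_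
  refine (totalDegree_monomial_le _ _).trans ?_
  have h1 := cz_deg hf j m hm
  rw [Finsupp.sum_fintype _ _ (fun i => rfl)]
  simp only [cz_r_apply, id]
  omega

theorem CNTZ : CNTZ_stmt := by
  classical
  intro ℓ _ d f j hf hf0
  have hpos : 0 < ℓ := (Fact.out : ℓ.Prime).pos
  have h1 := schwartz_zippel_totalDegree (cz_ne hf hf0 j) (Finset.univ : Finset (ZMod ℓ))
  rw [Finset.card_univ, ZMod.card] at h1
  have hl : (0 : ℚ≥0) < (ℓ : ℚ≥0) := by exact_mod_cast hpos
  rw [div_le_div_iff₀ (pow_pos hl 2) hl] at h1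
  have h2 : {c : Fin 2 → ZMod ℓ | eval (Fin.insertNth j (1 : ZMod ℓ) c : Fin 3 → ZMod ℓ) f = 0} =
      ↑((Fintype.piFinset fun _ : Fin 2 => (Finset.univ : Finset (ZMod ℓ))).filter
        fun c => eval c (cz_g j f) = 0) := by
    ext c
    simp only [Set.mem_ofPred_eq, Finset.coe_filter, Fintype.mem_piFinset, Finset.mem_univ,
      implies_true, true_and]
    rw [cz_eval]
  rw [h2, Set.ncard_coe_finset]
  set a := ((Fintype.piFinset fun _ : Fin 2 => (Finset.univ : Finset (ZMod ℓ))).filter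
        fun c => eval c (cz_g j f) = 0).card with ha
  have h3 : a * ℓ ≤ (cz_g j f).totalDegree * ℓ ^ 2 := by exact_mod_cast h1
  have h4 : a * ℓ ≤ (d * ℓ) * ℓ := by
    refine h3.trans ?_
    have := cz_tot hf j
    calc (cz_g j f).totalDegree * ℓ ^ 2 ≤ d * ℓ ^ 2 := Nat.mul_le_mul_right _ this
      _ = (d * ℓ) * ℓ := by ring
  exact Nat.le_of_mul_le_mul_right h4 hpos

end Pool.Agent.WB
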